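import Pool.Agent.helper40.SU.SpecA

/-!
# Row `RT1` of project su (MP_c66272_nt): at most four roots modulo `p` and modulo `p ^ 2`
-/

set_option autoImplicit false

open Finset

namespace Pool.Agent.SU

theorem RT1_420 (p : ℕ) (hp : p.Prime) (h7 : 7 < p) : ¬ p ∣ 420 := by
  intro h
  have h1 : (420 : ℕ) = 2 ^ 2 * 3 * 5 * 7 := by norm_num
  rw [h1] at h
  rcases (hp.dvd_mul.1 h) with h | h
  · rcases (hp.dvd_mul.1 h) with h | h
    · rcases (hp.dvd_mul.1 h) with h | h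
      · have := Nat.le_of_dvd (by norm_num) (hp.dvd_of_dvd_pow h)
        omega
      · have := Nat.le_of_dvd (by norm_num) h
        omega
    · have := Nat.le_of_dvd (by norm_num) h
      omega
  · have := Nat.le_of_dvd (by norm_num) h
    omega

open Polynomial in
theorem RT1_p (m p : ℕ) (hp : p.Prime) (h7 : 7 < p) : rt m p ≤ 4 := by
  classical
  have : Fact p.Prime := ⟨hp⟩
  set P : (ZMod p)[X] := C ((420 : ZMod p) ^ 2) * X ^ 4 + C (840 * (m : ZMod p) ^ 2) * X ^ 3 +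
    C ((m : ZMod p) ^ 4) * X ^ 2 + C ((m : ZMod p) ^ 2 + 1) with hP
  have hdeg : P.natDegree ≤ 4 := by
    rw [hP]
    compute_degree
  have h420 : ((420 : ZMod p)) ≠ 0 := by
    intro h0
    have h1 : ((420 : ℕ) : ZMod p) = 0 := by exact_mod_cast h0
    exact RT1_420 p hp h7 ((ZMod.natCast_eq_zero_iff 420 p).1 h1)
  have hne : P ≠ 0 := by
    intro h0
    have h1 : P.coeff 4 = (420 : ZMod p) ^ 2 := by
      rw [hP, coeff_add, coeff_add, coeff_add, coeff_C_mul_X_pow, coeff_C_mul_X_pow,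
        coeff_C_mul_X_pow, coeff_C]
      simp
    rw [h0, coeff_zero] at h1
    exact h420 (pow_eq_zero_iff (by norm_num) |>.1 h1.symm)
  have hroots : P.roots.toFinset.card ≤ 4 :=
    le_trans (Multiset.toFinset_card_le _) (le_trans (card_roots' P) hdeg)
  refine le_trans ?_ hroots
  refine Finset.card_le_card_of_injOn (fun y : ℕ => (y : ZMod p)) ?_ ?_
  · intro y hy
    rw [Finset.mem_coe, Finset.mem_filter] at hy
    rw [Finset.mem_coe, Multiset.mem_toFinset, mem_roots hne, IsRoot.def]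
    have h2 : ((Df m 1 y : ℕ) : ZMod p) = 0 := (ZMod.natCast_eq_zero_iff _ p).2 hy.2
    rw [hP]
    simp only [eval_add, eval_mul, eval_C, eval_pow, eval_X]
    rw [← h2]
    unfold Df
    push_cast
    ring
  · intro y hy z hz hyz
    rw [Finset.mem_coe, Finset.mem_filter, Finset.mem_range] at hy hz
    have h3 : (y : ZMod p) = (z : ZMod p) := hyz
    rw [ZMod.natCast_eq_natCast_iff] at h3
    exact Nat.ModEq.eq_of_lt_of_lt h3 hy.1 hz.1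

theorem RT1_sq (m p : ℕ) (hp : p.Prime) (h7 : 7 < p) (hbad : ¬ p ∣ (m ^ 2 + 1) * cf m) :
    rt m (p ^ 2) ≤ rt m p := by
  classical
  have hpZ : Prime (p : ℤ) := Nat.prime_iff_prime_int.1 hp
  have hm1 : ¬ (p : ℤ) ∣ (m : ℤ) ^ 2 + 1 := by
    intro h
    apply hbad
    refine Dvd.dvd.mul_right ?_ _
    have : (p : ℤ) ∣ ((m ^ 2 + 1 : ℕ) : ℤ) := by push_cast; exact h
    exact Int.natCast_dvd_natCast.1 this
  have hcf : ¬ (p : ℤ) ∣ (m : ℤ) ^ 8 + 1680 ^ 2 * ((m : ℤ) ^ 2 + 1) := by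
    intro h
    apply hbad
    refine Dvd.dvd.mul_left ?_ _
    have : (p : ℤ) ∣ ((cf m : ℕ) : ℤ) := by unfold cf; push_cast; exact h
    exact Int.natCast_dvd_natCast.1 this
  have h2 : ¬ (p : ℤ) ∣ 2 := by
    intro h
    have h1 : (p : ℤ) ∣ ((2 : ℕ) : ℤ) := by exact_mod_cast h
    have := Nat.le_of_dvd (by norm_num) (Int.natCast_dvd_natCast.1 h1)
    omega
  have hDf : ∀ y : ℕ, ((Df m 1 y : ℕ) : ℤ) =
      ((m : ℤ) ^ 2 + 1) + ((y : ℤ) * ((m : ℤ) ^ 2 + 420 * y)) ^ 2 := by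
    intro y
    unfold Df
    push_cast
    ring
  refine Finset.card_le_card_of_injOn (fun y : ℕ => y % p) ?_ ?_
  · intro y hy
    rw [Finset.mem_coe, Finset.mem_filter] at hy
    rw [Finset.mem_coe, Finset.mem_filter, Finset.mem_range]
    refine ⟨Nat.mod_lt _ hp.pos, ?_⟩
    have h3 : Df m 1 (y % p) ≡ Df m 1 y [MOD p] := by
      have h4 : y % p ≡ y [MOD p] := Nat.mod_modEq y p
      unfold Df
      exact (Nat.ModEq.refl _).add ((h4.mul ((Nat.ModEq.refl _).add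
        ((Nat.ModEq.refl _).mul h4))).pow 2)
    exact (Nat.modEq_zero_iff_dvd.1 (h3.trans (Nat.modEq_zero_iff_dvd.2
      (dvd_trans (dvd_pow_self p (by norm_num)) hy.2))))
  · intro y hy z hz hyz
    rw [Finset.mem_coe, Finset.mem_filter, Finset.mem_range] at hy hz
    have hyz' : y ≡ z [MOD p] := hyz
    obtain ⟨s, hs⟩ : (p : ℤ) ∣ (z : ℤ) - y := (Nat.modEq_iff_dvd.1 hyz')
    have hy2 : ((p : ℤ) ^ 2) ∣ ((m : ℤ) ^ 2 + 1) + ((y : ℤ) * ((m : ℤ) ^ 2 + 420 * y)) ^ 2 := by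
      rw [← hDf]
      exact_mod_cast hy.2
    have hz2 : ((p : ℤ) ^ 2) ∣ ((m : ℤ) ^ 2 + 1) + ((z : ℤ) * ((m : ℤ) ^ 2 + 420 * z)) ^ 2 := by
      rw [← hDf]
      exact_mod_cast hz.2
    have hyp : (p : ℤ) ∣ ((m : ℤ) ^ 2 + 1) + ((y : ℤ) * ((m : ℤ) ^ 2 + 420 * y)) ^ 2 :=
      dvd_trans (dvd_pow_self _ (by norm_num)) hy2
    have hprod : ((p : ℤ) ^ 2) ∣ ((z : ℤ) - y) * (((m : ℤ) ^ 2 + 420 * (y + z)) *
        ((y : ℤ) * ((m : ℤ) ^ 2 + 420 * y) + (z : ℤ) * ((m : ℤ) ^ 2 + 420 * z))) := by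
      have h5 := dvd_sub hz2 hy2
      have h6 : ((z : ℤ) - y) * (((m : ℤ) ^ 2 + 420 * (y + z)) *
        ((y : ℤ) * ((m : ℤ) ^ 2 + 420 * y) + (z : ℤ) * ((m : ℤ) ^ 2 + 420 * z))) =
        ((m : ℤ) ^ 2 + 1) + ((z : ℤ) * ((m : ℤ) ^ 2 + 420 * z)) ^ 2 -
        (((m : ℤ) ^ 2 + 1) + ((y : ℤ) * ((m : ℤ) ^ 2 + 420 * y)) ^ 2) := by ring
      rw [h6]
      exact h5
    have hc1 : ¬ (p : ℤ) ∣ (m : ℤ) ^ 2 + 420 * (y + z) := by
      intro h
      have h8 : (p : ℤ) ∣ (m : ℤ) ^ 2 + 840 * y := by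
        have h9 : (m : ℤ) ^ 2 + 840 * y = ((m : ℤ) ^ 2 + 420 * (y + z)) - 420 * ((z : ℤ) - y) := by
          ring
        rw [h9, hs]
        exact dvd_sub h (Dvd.dvd.mul_left (dvd_mul_right _ _) _)
      apply hcf
      have h10 : (m : ℤ) ^ 8 + 1680 ^ 2 * ((m : ℤ) ^ 2 + 1) =
          1680 ^ 2 * (((m : ℤ) ^ 2 + 1) + ((y : ℤ) * ((m : ℤ) ^ 2 + 420 * y)) ^ 2) -
          ((m : ℤ) ^ 2 + 840 * y) * (((m : ℤ) ^ 2 + 840 * y) * (((m : ℤ) ^ 2 + 840 * y) ^ 2 -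
            2 * (m : ℤ) ^ 4)) := by ring
      rw [h10]
      exact dvd_sub (Dvd.dvd.mul_left hyp _) (Dvd.dvd.mul_right h8 _)
    have hc2 : ¬ (p : ℤ) ∣ (y : ℤ) * ((m : ℤ) ^ 2 + 420 * y) + (z : ℤ) * ((m : ℤ) ^ 2 + 420 * z) := by
      intro h
      have h8 : (p : ℤ) ∣ 2 * ((y : ℤ) * ((m : ℤ) ^ 2 + 420 * y)) := by
        have h9 : 2 * ((y : ℤ) * ((m : ℤ) ^ 2 + 420 * y)) =
            ((y : ℤ) * ((m : ℤ) ^ 2 + 420 * y) + (z : ℤ) * ((m : ℤ) ^ 2 + 420 * z)) -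
            ((z : ℤ) - y) * ((m : ℤ) ^ 2 + 420 * (y + z)) := by ring
        rw [h9, hs]
        exact dvd_sub h (Dvd.dvd.mul_right (dvd_mul_right _ _) _)
      rcases hpZ.dvd_or_dvd h8 with h9 | h9
      · exact h2 h9
      · apply hm1
        have h10 : (m : ℤ) ^ 2 + 1 = (((m : ℤ) ^ 2 + 1) + ((y : ℤ) * ((m : ℤ) ^ 2 + 420 * y)) ^ 2) -
            ((y : ℤ) * ((m : ℤ) ^ 2 + 420 * y)) ^ 2 := by ring
        rw [h10]
        exact dvd_sub hyp (dvd_pow h9 (by norm_num))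
    have hcop : IsCoprime ((p : ℤ) ^ 2) (((m : ℤ) ^ 2 + 420 * (y + z)) *
        ((y : ℤ) * ((m : ℤ) ^ 2 + 420 * y) + (z : ℤ) * ((m : ℤ) ^ 2 + 420 * z))) := by
      apply IsCoprime.pow_left
      apply IsCoprime.mul_right
      · exact (hpZ.coprime_iff_not_dvd).2 hc1
      · exact (hpZ.coprime_iff_not_dvd).2 hc2
    have hfin : ((p : ℤ) ^ 2) ∣ (z : ℤ) - y := hcop.dvd_of_dvd_mul_right hprod
    have hmod : y ≡ z [MOD p ^ 2] := by
      rw [Nat.modEq_iff_dvd]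
      push_cast
      exact hfin
    exact Nat.ModEq.eq_of_lt_of_lt hmod hy.1 hz.1

/-- Row `RT1` of project su. -/
theorem RT1 : RT1_stmt := by
  intro Z m q u₀ k₀ hZ hD p hp hpq
  have h7 : 7 < p := by
    by_contra h
    exact hpq (hD.small p hp (by omega))
  have hbad : ¬ p ∣ (m ^ 2 + 1) * cf m := fun h => hpq (hD.bad p hp h)
  exact ⟨RT1_p m p hp h7, le_trans (RT1_sq m p hp h7 hbad) (RT1_p m p hp h7)⟩

end Pool.Agent.SU
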